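import Pool.Agent.N944.BH.Above

/-!
`B(p q^b) ≥ p max(r, p - r) > p` for odd primes `p < q` and `b ≥ 3`, where `q r ≡ 1 (mod p)`.
-/

set_option autoImplicit false

namespace Pool.Agent.Results.MP_7a0dfe_nt.HeightAboveP

open Pool.Agent.N944.BH Polynomial

/-- Let `p < q` be primes and `b ≥ 3`. If `0 < r < p` and `q r ≡ 1 (mod p)` then
`B(p q^b) ≥ p r` and `B(p q^b) ≥ p (p - r)`. If `p` is odd then `B(p q^b) > p`, and even
`B(p q^b) ≥ p (p + 1) / 2`. Moreover `B n` is a maximum for every `n ≥ 1`. -/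
theorem result :
    (∀ p q b : ℕ, p.Prime → q.Prime → p ≠ 2 → p < q → 2 < b →
      p < B (p * q ^ b) ∧ p * (p + 1) ≤ 2 * B (p * q ^ b)) ∧
    (∀ p q r b : ℕ, p.Prime → q.Prime → p < q → 2 < b → r < p → q * r % p = 1 →
      p * r ≤ B (p * q ^ b) ∧ p * (p - r) ≤ B (p * q ^ b)) ∧
    (∀ n : ℕ, 1 ≤ n → (∀ f : ℤ[X], f ∣ X ^ n - 1 → height f ≤ B n) ∧
      ∃ f : ℤ[X], f ∣ X ^ n - 1 ∧ height f = B n) := by
  refine ⟨fun p q b hp hq hp2 hpq hb => ?_, fun p q r b hp hq hpq hb hr h1 =>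
    lower hp hq hpq hr h1 hb, fun n hn => ⟨fun f hf => le_B hn hf, B_mem hn⟩⟩
  have h := above hp hp2 hq hpq hb
  refine ⟨?_, h⟩
  have h3 : 3 ≤ p := by have := hp.two_le; omega
  nlinarith

end Pool.Agent.Results.MP_7a0dfe_nt.HeightAboveP
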